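import Pool.Agent.H95.CG.Final

/-!
# Central values of class group L-functions of number fields of fixed degree
-/

set_option autoImplicit false

open NumberField
open scoped nonZeroDivisors

namespace Pool.Agent.Results.MP_347b49_nt.ClassGroupValues

/-- the characters of the class group of `K` -/
abbrev Chars (K : Type) [Field K] [NumberField K] : Type := ClassGroup (𝓞 K) →* ℂˣ

/-- the term `ψ(I) N(I)^(-s)` of the Dirichlet series -/
noncomputable def term (K : Type) [Field K] [NumberField K] (ψ : Chars K) (s : ℂ)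
    (I : (Ideal (𝓞 K))⁰) : ℂ :=
  ((ψ (ClassGroup.mk0 I) : ℂˣ) : ℂ) * (Ideal.absNorm (I : Ideal (𝓞 K)) : ℂ) ^ (-s)

/-- `L` is an entire function that is equal to `∑ ψ(I) N(I)^(-s)` for `Re s > 1` -/
def IsLFunction (K : Type) [Field K] [NumberField K] (ψ : Chars K) (L : ℂ → ℂ) : Prop :=
  Differentiable ℂ L ∧ ∀ s : ℂ, 1 < s.re → HasSum (term K ψ s) (L s)

/-- class number times regulator times `(log |D|)^k` -/
noncomputable def size (K : Type) [Field K] [NumberField K] (k : ℕ) : ℝ :=
  classNumber K * Units.regulator K * Real.log |(discr K : ℝ)| ^ k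

/-- For every `n ≥ 2` there is `c > 0` such that for every number field `K` of degree `n` and
every subgroup `H` of the group of characters of the class group of `K` at least
`c |H|² / (h R (log |D|)^(n+2)) - 1` characters `ψ ≠ 1` in `H` have `L(1/2, ψ) ≠ 0`. -/
theorem result : ∀ n : ℕ, 2 ≤ n → ∃ c : ℝ, 0 < c ∧
    ∀ (K : Type) [Field K] [NumberField K], Module.finrank ℚ K = n →
      ∃ L : Chars K → ℂ → ℂ, (∀ ψ : Chars K, ψ ≠ 1 → IsLFunction K ψ (L ψ)) ∧
        ∀ H : Subgroup (Chars K), c * (Nat.card H : ℝ) ^ 2 / size K (n + 2) - 1 ≤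
          Nat.card {ψ : Chars K // ψ ∈ H ∧ ψ ≠ 1 ∧ L ψ (1 / 2) ≠ 0} :=
  Pool.Agent.H95.CG.FI_proved

end Pool.Agent.Results.MP_347b49_nt.ClassGroupValues
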