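import Pool.Agent.H95.NV.All

/-!
# Central values of orthogonal Artin `L`-functions of every even degree

Let `k` be a totally real number field, of degree `n` and of any class number, `K` a totally complex
quadratic extension of `k`, and `ψ` a class group character of `K` which is trivial on the ideals of
`k`. Then `Ind ψ`, induced from `K` to `ℚ`, is an orthogonal representation of degree `2 n` of a
Galois group over `ℚ`, and `L(s, ψ)` is its Artin `L`-function. We prove, unconditionally, for every
`k`: in the mean over all these `K` with `|disc K| ≤ X` at least the proportion `19/27 = 70.37 %`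
(minus `ε`) of all these `ψ` has an irreducible representation `Ind ψ` over `ℚ` and an entire
`L`-function with `L(1/2, ψ) ≠ 0`.

Idea.

(1) Forms. `K = k(√-D)` belongs to an ideal `f` of `k` (its Steinitz class) and to a totally positive
`D ∈ f²` modulo the squares of the units of `k`, with `b² + D ∈ 4 f²` for some `b ∈ f`. The classes of
ideals of `K` modulo the ideals of `k` are represented by the lattices `A f + O w`,
`w = (b + √-D)/2`, for ideals `A` of `k` and `b ∈ f`, `b² + D ∈ 4 A f²`. The central value of the
`L`-function of `ψ` is the sum of `ψ` times the central values of Epstein zeta functions over `k`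
of all the classes; the lattices of all ideal classes of `k` are taken together, so that all `f`, `A`
enter in the same way and no condition on the class numbers is needed.

(2) Positivity and unfolding. By Cauchy's inequality over the characters (only the characters with
`L(1/2, ψ) ≠ 0` contribute) one needs the sum over the classes of the squares of the mollified values.
It is at most the sum over all the forms `(A, b, c)` of the given discriminant, with automorphisms,
divided by the units, and this is a sum over the pairs of a vector and a form which unfolds to a sum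
over `b` modulo `2 A f`, `b² + D ∈ 4 A f²`. The mollifier is a sum of Hecke operators.

(3) The average over `D` is an average over pairs `(b, c)` of integers of `k`, by Poisson summation
and Euler-Maclaurin summation in `n` variables; a partition of unity for the squares of the units
gives smooth weights with compact support. The mollifier may have the length `X^θ`, `θ < 1/4`, and
gives the proportion `1 - (1 + 2 θ)^(-3)`; `19/27` for `θ → 1/4`. The discriminants which are not
fundamental are removed by congruences at the small primes and a sieve bound. The optimal mollifier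
is studied over an abstract semigroup of ideals which satisfies Axiom A.

(4) Irreducibility over `ℚ`. If `i ≠ j` are two embeddings of `K` in a number field `F` generated by
their images and if `i(D) j(D)` is not a square in `i(k) j(k)`, then an automorphism of `F` over
`j(K)` is the complex conjugation on `i(K)`; if the characters `ψ ∘ N_i` and `ψ ∘ N_j` of the ideals
of `F` were equal then `ψ ∘ N_i` would be real and `ψ` would have a bounded order. Few characters
have a bounded order, because the powers of the class of a prime ideal of small norm are different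
classes. There are few `D` for which `i(D) j(D)` is a square, because two different primes of `k`
below a prime of degree one of `i(k) j(k)` would have the same splitting in `K`.

Lean proof: helper89 (plan, definitions and interface, unfolding: Pool/Agent/H89/NV), helper61
(Epstein zeta functions: Pool/Agent/H61/NVK), helper65 (averages over the discriminant:
Pool/Agent/H65/NV), helper91 (local weights: Pool/Agent/H91/NV), helper23 (mollifier:
Pool/Agent/H23/NVK), helper95 (fields, ideals, characters, irreducibility, the family:
Pool/Agent/H95/NV), with modules by helpers 1, 2, 3, 4, 5, 6, 7, 10, 11, 13, 16, 20, 21, 22, 24,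
25, 26, 27, 31, 32, 33, 34, 35, 36, 38, 39, 40, 41, 42, 45, 46, 49, 50, 51, 54, 57, 58, 60, 63,
64, 66, 68, 70, 71, 72, 73, 74, 75, 78, 80, 81, 82, 83, 85, 86, 93, 94, 96, 98, 99.
-/

set_option autoImplicit false

open NumberField
open scoped nonZeroDivisors

namespace Pool.Agent.Results.MP_347b49_nt.HigherDegree

/-- The class group character `ψ` of `K` is trivial on the ideals of `k`. -/
def TrivialOn (k : Type) [Field k] [NumberField k] (K : Type) [Field K] [NumberField K]
    [Algebra k K] (ψ : ClassGroup (𝓞 K) →* ℂˣ) : Prop :=
  ∀ (I : Ideal (𝓞 k)) (J : (Ideal (𝓞 K))⁰),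
    (J : Ideal (𝓞 K)) = I.map (algebraMap (𝓞 k) (𝓞 K)) → ψ (ClassGroup.mk0 J) = 1

/-- The relative norm of an ideal of `F`, for the field extension given by the embedding `i` of `K`
in `F`. -/
noncomputable def normAlong {K F : Type} [Field K] [NumberField K] [Field F] [NumberField F]
    (i : K →+* F) (A : Ideal (𝓞 F)) : Ideal (𝓞 K) :=
  letI : Algebra K F := i.toAlgebra
  Ideal.relNorm (𝓞 K) A

/-- The representation of the Galois group over `ℚ` induced by the class group character `ψ` of `K` is
irreducible. This is Mackey's criterion: for two different embeddings `i`, `j` of `K` in a number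
field `F` generated by their images, `ψ` and its conjugate, restricted to `F`, are different, that is
`ψ ∘ N_i` and `ψ ∘ N_j` are different on the ideals of `F`. -/
def InducesIrreducible (K : Type) [Field K] [NumberField K] (ψ : ClassGroup (𝓞 K) →* ℂˣ) : Prop :=
  ∀ (F : Type) [Field F] [NumberField F] (i j : K →+* F), i ≠ j →
    Subfield.closure (Set.range i ∪ Set.range j) = ⊤ →
    ∃ (A : (Ideal (𝓞 F))⁰) (I J : (Ideal (𝓞 K))⁰), (I : Ideal (𝓞 K)) = normAlong i A ∧
      (J : Ideal (𝓞 K)) = normAlong j A ∧ ψ (ClassGroup.mk0 I) ≠ ψ (ClassGroup.mk0 J)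

/-- The `L`-function of the class group character `ψ` has an entire continuation, which does not
vanish at `1/2`. -/
def NonVanishing (K : Type) [Field K] [NumberField K] (ψ : ClassGroup (𝓞 K) →* ℂˣ) : Prop :=
  ∃ Λ : ℂ → ℂ, Differentiable ℂ Λ ∧ (∀ s : ℂ, 1 < s.re →
    HasSum (fun I : (Ideal (𝓞 K))⁰ => ((ψ (ClassGroup.mk0 I) : ℂˣ) : ℂ) *
      (Ideal.absNorm (I : Ideal (𝓞 K)) : ℂ) ^ (-s)) (Λ s)) ∧ Λ (1 / 2) ≠ 0

/-- Among the class group characters `ψ` of `K` which are trivial on the ideals of `k`, the proportion
of those with `Ind ψ` irreducible over `ℚ` and `L(1/2, ψ) ≠ 0`. -/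
noncomputable def proportion (k : Type) [Field k] [NumberField k] (K : Type) [Field K]
    [NumberField K] [Algebra k K] : ℝ :=
  (Nat.card {ψ : ClassGroup (𝓞 K) →* ℂˣ //
      TrivialOn k K ψ ∧ InducesIrreducible K ψ ∧ NonVanishing K ψ} : ℝ) /
    Nat.card {ψ : ClassGroup (𝓞 K) →* ℂˣ // TrivialOn k K ψ}

/-- The fields `K i` are, up to isomorphism over `k` and without repetition, all the totally complex
quadratic extensions of `k` with `|disc| ≤ X`. -/
structure IsCompleteList (k : Type) [Field k] [NumberField k] (X : ℝ) (ι : Type) (K : ι → Type)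
    [∀ i, Field (K i)] [∀ i, NumberField (K i)] [∀ i, Algebra k (K i)] : Prop where
  quadratic : ∀ i, Algebra.IsQuadraticExtension k (K i)
  totallyComplex : ∀ i, IsTotallyComplex (K i)
  disc_le : ∀ i, |(discr (K i) : ℝ)| ≤ X
  different : ∀ i j, Nonempty (K i ≃ₐ[k] K j) → i = j
  complete : ∀ (L : Type) [Field L] [NumberField L] [Algebra k L]
    [Algebra.IsQuadraticExtension k L] [IsTotallyComplex L], |(discr L : ℝ)| ≤ X →
    ∃ i, Nonempty (L ≃ₐ[k] K i)

/-- Let `k` be a totally real number field. There are complete lists for all `X`, they have between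
`c X` and `C X` elements for all large `X`, and for every `ε > 0` the mean value of the proportion over
a complete list is at least `19/27 - ε` for all large `X`. -/
theorem result (k : Type) [Field k] [NumberField k] [IsTotallyReal k] :
    (∀ X : ℝ, ∃ (n : ℕ) (K : Fin n → Type) (_ : ∀ i, Field (K i)) (_ : ∀ i, NumberField (K i))
      (_ : ∀ i, Algebra k (K i)), IsCompleteList k X (Fin n) K) ∧
    (∃ c C X₀ : ℝ, 0 < c ∧ 0 < C ∧ ∀ X : ℝ, X₀ ≤ X → ∀ (ι : Type) [Fintype ι] (K : ι → Type)
      [∀ i, Field (K i)] [∀ i, NumberField (K i)] [∀ i, Algebra k (K i)],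
      IsCompleteList k X ι K → c * X ≤ Fintype.card ι ∧ Fintype.card ι ≤ C * X) ∧
    ∀ ε : ℝ, 0 < ε → ∃ X₀ : ℝ, ∀ X : ℝ, X₀ ≤ X → ∀ (ι : Type) [Fintype ι] (K : ι → Type)
      [∀ i, Field (K i)] [∀ i, NumberField (K i)] [∀ i, Algebra k (K i)],
      IsCompleteList k X ι K → (19 / 27 - ε) * Fintype.card ι ≤ ∑ i, proportion k (K i) := by
  have conv : ∀ (X : ℝ) (ι : Type) (K : ι → Type) [∀ i, Field (K i)] [∀ i, NumberField (K i)]
      [∀ i, Algebra k (K i)], IsCompleteList k X ι K ↔ Pool.Agent.H95.NV.CL k X ι K :=
    fun X ι K _ _ _ => ⟨fun h => ⟨h.1, h.2, h.3, h.4, h.5⟩, fun h => ⟨h.1, h.2, h.3, h.4, h.5⟩⟩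
  obtain ⟨h1, ⟨c, C, X₀, hc, hC, h2⟩, h3⟩ := Pool.Agent.H95.NV.fn2 k
  refine ⟨fun X => ?_, ⟨c, C, X₀, hc, hC, fun X hX ι _ K _ _ _ h => ?_⟩, fun ε hε => ?_⟩
  · obtain ⟨n, K, i1, i2, i3, h⟩ := h1 X
    exact ⟨n, K, i1, i2, i3, (conv X (Fin n) K).2 h⟩
  · exact h2 X hX ι K ((conv X ι K).1 h)
  · obtain ⟨X₀, h⟩ := h3 ε hε
    exact ⟨X₀, fun X hX ι _ K _ _ _ hL => h X hX ι K ((conv X ι K).1 hL)⟩

end Pool.Agent.Results.MP_347b49_nt.HigherDegree
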