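import Mathlib
import Pool.Agent.H87.Synth.Defs
import Pool.Agent.H87.Synth.Final

/-!
MP_de9001_an: for every `α > 1/2` there is an equivalence relation on the integers, all of whose
classes have at most two elements `m, n` with `|m - n| ≤ 48 (1 + min |m| |n|)^α`, which fails the
synthesis property.
-/

namespace Pool.Agent.H95.Kept.PairsNoSynthesis

open Pool.Agent.H87.Synth

theorem result (α : ℝ) (hα : 1 / 2 < α) : ∃ r : Setoid ℤ,
    (∀ m, {n | r m n}.encard ≤ 2) ∧
    (∀ m n, r m n → |(m : ℝ) - n| ≤ 48 * (1 + min |(m : ℝ)| |(n : ℝ)|) ^ α) ∧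
    ¬ HasSynthesis r :=
  Con.no_synthesis_pairs α hα

end Pool.Agent.H95.Kept.PairsNoSynthesis
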